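import Pool.Agent.H16.TIE.Slp

/-!
# Ties: one hop

`one_core`: the time of a hop is full; it moves the height `U` with the speed `k` and the height `N`
with the speed `k'`, and `k' / k` is near `η g`. Then `U` is full given its first digits, the height
`N - η g U` and the digits `N / m`.
-/

set_option autoImplicit false

namespace Pool.TIE16

open Finset Real
open Pool.Agent.H49.Ent Pool.Agent.H32.Dense Pool.STK Pool.OWN68
open Pool.BFL (Pb)
open Pool.PR46

/-- The height over the slope `γ`, relative to the digits `U / m`. -/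
noncomputable def wht (m : ℕ) (γ : ℝ) (U N : ℤ) : ℤ := N - ⌊γ * ((U % m : ℤ) : ℝ)⌋

/-- The error of `one_core`. -/
noncomputable def errO (K m M : ℕ) (η V κ : ℝ) : ℝ :=
  Real.log ((4 * K + 5) * (7 + 4 * K)) + κ * Real.log m + (Real.log 2 + Real.log 17 +
    κ * Real.log (4 * V / η + 1)) + (Real.log 2 + Real.log (4 * (V + 2) * K + 9) +
    κ * Real.log (4 * M + 4 * K + 4 * V * m + 5)) + Real.log (4 * V + 7)

theorem emod_bd {m : ℕ} (hm : 1 ≤ m) (x : ℤ) : (0 : ℝ) ≤ ((x % m : ℤ) : ℝ) ∧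
    ((x % m : ℤ) : ℝ) ≤ m ∧ (x : ℝ) = ((x % m : ℤ) : ℝ) + m * ((x / m : ℤ) : ℝ) := by
  have hmz : (0 : ℤ) < m := by exact_mod_cast hm
  have h1 := Int.emod_add_mul_ediv x m
  have h2 := Int.emod_nonneg x hmz.ne'
  have h3 := Int.emod_lt_of_pos x hmz
  refine ⟨by exact_mod_cast h2, by exact_mod_cast h3.le, by exact_mod_cast h1.symm⟩

theorem wht_near {m : ℕ} (hm : 1 ≤ m) {γ V : ℝ} (hγ : |γ| ≤ V) (U N : ℤ) :
    |((N - wht m γ U N : ℤ) : ℝ)| ≤ V * m + 1 := by
  obtain ⟨h1, h2, -⟩ := emod_bd hm U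
  have e : ((N - wht m γ U N : ℤ) : ℝ) = (⌊γ * ((U % m : ℤ) : ℝ)⌋ : ℝ) := by
    unfold wht
    push_cast
    ring
  rw [e]
  have g1 : |γ * ((U % m : ℤ) : ℝ)| ≤ V * m := by
    rw [abs_mul, abs_of_nonneg h1]
    exact mul_le_mul hγ h2 h1 ((abs_nonneg _).trans hγ)
  have g2 := Int.floor_le (γ * ((U % m : ℤ) : ℝ))
  have g3 := Int.lt_floor_add_one (γ * ((U % m : ℤ) : ℝ))
  rw [abs_le] at g1 ⊢
  constructor <;> linarith

open Classical in
/-- **One hop: the entropy core.** -/
theorem one_core {Ω ζ : Type} [Fintype Ω] {q : Ω → ℝ} (hq : IsLaw q) {M K m : ℕ} (hM : 1 ≤ M)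
    (hm : 1 ≤ m) (T1 U N gi : Ω → ℤ) (Z : Ω → ζ) (k k' a b γ : ζ → ℝ) {η V κ e : ℝ} (hη : 0 < η)
    (hV : 1 ≤ V)
    (h1 : ∀ ω, 0 < q ω → |T1 ω| ≤ (M : ℤ)) (hk : ∀ ω, 0 < q ω → |k (Z ω)| ≤ M)
    (hk' : ∀ ω, 0 < q ω → |k' (Z ω)| ≤ M)
    (hU : ∀ ω, 0 < q ω → |(U ω : ℝ) - (a (Z ω) - k (Z ω) * T1 ω / M)| ≤ K)
    (hN : ∀ ω, 0 < q ω → |(N ω : ℝ) - (b (Z ω) - k' (Z ω) * T1 ω / M)| ≤ K)
    (hfull : Real.log (2 * M + 1) - e ≤ CH q T1 Z)
    (hg : ∀ ω, 0 < q ω → |η * gi ω| ≤ V)
    (hE : law q (fun ω => (m : ℝ) ≤ |k (Z ω)| ∧ |k' (Z ω) - η * gi ω * k (Z ω)| ≤ |k (Z ω)| / m ∧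
      |γ (Z ω) - η * gi ω| ≤ 4 * η) False ≤ κ) :
    Real.log m - e - errO K m M η V κ ≤ CH q U (fun ω => (wht m (η * gi ω) (U ω) (N ω),
      ((U ω / m, N ω / m), (gi ω, Z ω)))) := by
  have h0 := hq.nonneg
  have hMr : (1 : ℝ) ≤ M := by exact_mod_cast hM
  have hM0 : (0 : ℝ) < M := by linarith
  have hmr : (1 : ℝ) ≤ m := by exact_mod_cast hm
  have hm0 : (0 : ℝ) < m := by linarith
  have hK0 : (0 : ℝ) ≤ K := Nat.cast_nonneg K
  have hκ : 0 ≤ κ := (law_nonneg h0 _ _).trans hE
  have hlogm : 0 ≤ Real.log m := Real.log_nonneg hmr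
  obtain ⟨E, hEd⟩ : ∃ E : Ω → Prop, E = fun ω => (m : ℝ) ≤ |k (Z ω)| ∧
      |k' (Z ω) - η * gi ω * k (Z ω)| ≤ |k (Z ω)| / m ∧ |γ (Z ω) - η * gi ω| ≤ 4 * η := ⟨_, rfl⟩
  rw [← hEd] at hE
  obtain ⟨W, hW⟩ : ∃ W : Ω → ℤ, W = fun ω => wht m (η * gi ω) (U ω) (N ω) := ⟨_, rfl⟩
  have hWω : ∀ ω, W ω = wht m (η * gi ω) (U ω) (N ω) := fun ω => by rw [hW]
  -- (i) the time given `U`
  have i1 : CH q T1 (fun ω => (U ω, Z ω)) ≤ Ex q (fun ω => Real.log (2 *
      (if (m : ℝ) ≤ |k (Z ω)| then 2 * K * M / |k (Z ω)| else 2 * M) + 1)) := by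
    refine CH_le_int h0 hq.sum_one T1 _ _ fun ω ω' hω hω' hz => ?_
    have z1 : U ω = U ω' := (Prod.ext_iff.mp hz).1
    have z2 : Z ω = Z ω' := (Prod.ext_iff.mp hz).2
    push_cast
    split_ifs with hc
    · have hkp : 0 < |k (Z ω)| := by linarith
      have a1 := hU ω hω
      have a2 := hU ω' hω'
      rw [← z1, ← z2] at a2
      rw [le_div_iff₀ hkp, ← abs_mul]
      have e1 : ((T1 ω : ℝ) - T1 ω') * k (Z ω) = M * (((U ω : ℝ) - (a (Z ω) - k (Z ω) * T1 ω / M)) -
          ((U ω : ℝ) - (a (Z ω) - k (Z ω) * T1 ω' / M))) := by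
        field_simp
        ring
      rw [e1, abs_mul, abs_of_pos hM0]
      have a3 := (abs_sub ((U ω : ℝ) - (a (Z ω) - k (Z ω) * T1 ω / M))
        ((U ω : ℝ) - (a (Z ω) - k (Z ω) * T1 ω' / M))).trans (add_le_add a1 a2)
      calc (M : ℝ) * _ ≤ M * (K + K) := mul_le_mul_of_nonneg_left a3 hM0.le
        _ = 2 * K * M := by ring
    · have a1 : |(T1 ω : ℝ)| ≤ M := by exact_mod_cast h1 ω hω
      have a2 : |(T1 ω' : ℝ)| ≤ M := by exact_mod_cast h1 ω' hω'
      exact (abs_sub _ _).trans (by linarith)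
  -- (ii) the first digits of `U`
  have i2 : CH q (fun ω => U ω / (m : ℤ)) Z ≤ Ex q (fun ω => Real.log (2 *
      ((2 * |k (Z ω)| + 2 * K) / m + 1) + 1)) := by
    refine CH_le_int h0 hq.sum_one _ _ _ fun ω ω' hω hω' hz => ?_
    refine (ediv_diff hm (U ω) (U ω')).trans ?_
    have a1 := hU ω hω
    have a2 := hU ω' hω'
    have z2 : Z ω = Z ω' := hz
    rw [← z2] at a2
    have t1 : |(T1 ω : ℝ)| ≤ M := by exact_mod_cast h1 ω hω
    have t2 : |(T1 ω' : ℝ)| ≤ M := by exact_mod_cast h1 ω' hω'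
    have g : ∀ s : ℝ, |s| ≤ M → |k (Z ω) * s / M| ≤ |k (Z ω)| := by
      intro s hs
      rw [abs_div, abs_mul, abs_of_pos hM0, div_le_iff₀ hM0]
      exact mul_le_mul_of_nonneg_left hs (abs_nonneg _)
    have g1 := g _ t1
    have g2 := g _ t2
    have g3 : |((U ω : ℝ) - U ω')| ≤ 2 * |k (Z ω)| + 2 * K := by
      rw [abs_le] at a1 a2 g1 g2 ⊢
      constructor <;> linarith
    have g4 : |((U ω : ℝ) - U ω')| / m ≤ (2 * |k (Z ω)| + 2 * K) / m :=
      div_le_div_of_nonneg_right g3 hm0.le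
    linarith
  have i12 : CH q T1 (fun ω => (U ω, Z ω)) + CH q (fun ω => U ω / (m : ℤ)) Z ≤
      Real.log ((4 * K + 5) * (7 + 4 * K)) + Real.log M - Real.log m + κ * Real.log m := by
    have hb : Ex q (fun ω => (if E ω = False then (1 : ℝ) else 0)) ≤ κ := by
      refine le_trans (le_of_eq ?_) hE
      unfold Ex law
      refine Finset.sum_congr rfl fun ω _ => ?_
      by_cases hh : E ω = False
      · rw [if_pos hh]
        show q ω * (if E ω = False then (1 : ℝ) else 0) = q ω
        rw [if_pos hh, mul_one]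
      · rw [if_neg hh]
        show q ω * (if E ω = False then (1 : ℝ) else 0) = 0
        rw [if_neg hh, mul_zero]
    have c1 : (0 : ℝ) < (4 * K + 5) * (7 + 4 * K) := by positivity
    have hsum : Ex q (fun ω => Real.log (2 *
        (if (m : ℝ) ≤ |k (Z ω)| then 2 * K * M / |k (Z ω)| else 2 * M) + 1)) +
        Ex q (fun ω => Real.log (2 * ((2 * |k (Z ω)| + 2 * K) / m + 1) + 1)) ≤
        Ex q (fun ω => (Real.log ((4 * K + 5) * (7 + 4 * K)) + Real.log M - Real.log m) +
          Real.log m * (if E ω = False then (1 : ℝ) else 0)) := by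
      unfold Ex
      rw [← Finset.sum_add_distrib]
      refine Finset.sum_le_sum fun ω _ => ?_
      rcases (h0 ω).eq_or_lt with hz | hz
      · rw [← hz]
        simp
      rw [← mul_add]
      refine mul_le_mul_of_nonneg_left ?_ (h0 ω)
      dsimp only
      have l2 : (0 : ℝ) < 2 * ((2 * |k (Z ω)| + 2 * K) / m + 1) + 1 := by positivity
      by_cases hc : (m : ℝ) ≤ |k (Z ω)|
      · rw [if_pos hc]
        have hkp : 0 < |k (Z ω)| := by linarith
        have l1 : (0 : ℝ) < 2 * (2 * K * M / |k (Z ω)|) + 1 := by positivity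
        rw [← Real.log_mul l1.ne' l2.ne']
        have f1 : 2 * (2 * K * M / |k (Z ω)|) + 1 ≤ (4 * K + 1) * M / |k (Z ω)| := by
          rw [le_div_iff₀ hkp]
          have := hk ω hz
          have e1 : (2 * (2 * K * M / |k (Z ω)|) + 1) * |k (Z ω)| = 4 * K * M + |k (Z ω)| := by
            field_simp
            ring
          rw [e1]
          linarith
        have f2 : 2 * ((2 * |k (Z ω)| + 2 * K) / m + 1) + 1 ≤ (7 + 4 * K) * |k (Z ω)| / m := by
          rw [le_div_iff₀ hm0]
          have e1 : (2 * ((2 * |k (Z ω)| + 2 * K) / m + 1) + 1) * m =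
              4 * |k (Z ω)| + 4 * K + 3 * m := by
            field_simp
            ring
          rw [e1]
          have : (K : ℝ) * 1 ≤ K * |k (Z ω)| := mul_le_mul_of_nonneg_left (by linarith) hK0
          linarith
        have f3 : Real.log ((2 * (2 * K * M / |k (Z ω)|) + 1) *
            (2 * ((2 * |k (Z ω)| + 2 * K) / m + 1) + 1)) ≤
            Real.log ((4 * K + 5) * (7 + 4 * K)) + Real.log M - Real.log m := by
          rw [← Real.log_mul c1.ne' hM0.ne', ← Real.log_div (by positivity) hm0.ne']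
          refine Real.log_le_log (by positivity) ?_
          refine (mul_le_mul f1 f2 l2.le (by positivity)).trans ?_
          have e1 : (4 * (K : ℝ) + 1) * M / |k (Z ω)| * ((7 + 4 * K) * |k (Z ω)| / m) =
              (4 * K + 1) * (7 + 4 * K) * M / m := by
            field_simp
          rw [e1]
          refine div_le_div_of_nonneg_right ?_ hm0.le
          refine mul_le_mul_of_nonneg_right ?_ hM0.le
          exact mul_le_mul_of_nonneg_right (by linarith) (by positivity)
        refine f3.trans ?_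
        have : (0 : ℝ) ≤ Real.log m * (if E ω = False then (1 : ℝ) else 0) :=
          mul_nonneg hlogm (by split_ifs <;> norm_num)
        linarith
      · rw [if_neg hc]
        have hEf : E ω = False := eq_false fun h => hc (by rw [hEd] at h; exact h.1)
        rw [if_pos hEf, mul_one]
        push Not at hc
        have l1 : (0 : ℝ) < 2 * (2 * M) + 1 := by positivity
        rw [← Real.log_mul l1.ne' l2.ne', sub_add_cancel, ← Real.log_mul c1.ne' hM0.ne']
        refine Real.log_le_log (by positivity) ?_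
        have f1 : 2 * (2 * (M : ℝ)) + 1 ≤ 5 * M := by linarith
        have f2 : 2 * ((2 * |k (Z ω)| + 2 * K) / m + 1) + 1 ≤ 7 + 4 * K := by
          have e1 : (2 * |k (Z ω)| + 2 * K) / m ≤ 2 + 2 * K := by
            rw [div_le_iff₀ hm0]
            have : (K : ℝ) * 1 ≤ K * m := mul_le_mul_of_nonneg_left hmr hK0
            linarith
          linarith
        refine (mul_le_mul f1 f2 l2.le (by positivity)).trans ?_
        have e1 : (5 : ℝ) * M * (7 + 4 * K) = (5 * (7 + 4 * K)) * M := by ring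
        rw [e1]
        refine mul_le_mul_of_nonneg_right ?_ hM0.le
        exact mul_le_mul_of_nonneg_right (by linarith) (by positivity)
    have hfin : Ex q (fun ω => (Real.log ((4 * K + 5) * (7 + 4 * K)) + Real.log M - Real.log m) +
          Real.log m * (if E ω = False then (1 : ℝ) else 0)) ≤
        Real.log ((4 * K + 5) * (7 + 4 * K)) + Real.log M - Real.log m + κ * Real.log m := by
      have e1 : Ex q (fun ω => (Real.log ((4 * K + 5) * (7 + 4 * K)) + Real.log M - Real.log m) +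
          Real.log m * (if E ω = False then (1 : ℝ) else 0)) =
          (Real.log ((4 * K + 5) * (7 + 4 * K)) + Real.log M - Real.log m) +
          Real.log m * Ex q (fun ω => (if E ω = False then (1 : ℝ) else 0)) := by
        unfold Ex
        rw [Finset.mul_sum]
        have e2 : ∀ ω, q ω * ((Real.log ((4 * K + 5) * (7 + 4 * K)) + Real.log M - Real.log m) +
            Real.log m * (if E ω = False then (1 : ℝ) else 0)) =
            q ω * (Real.log ((4 * K + 5) * (7 + 4 * K)) + Real.log M - Real.log m) +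
            Real.log m * (q ω * (if E ω = False then (1 : ℝ) else 0)) := fun ω => by ring
        rw [Finset.sum_congr rfl fun ω _ => e2 ω, Finset.sum_add_distrib, ← Finset.sum_mul,
          hq.sum_one, one_mul]
      rw [e1]
      have := mul_le_mul_of_nonneg_left hb hlogm
      linarith
    linarith
  -- (iii) the slope
  have i3 : CH q gi Z ≤ Real.log 2 + Real.log 17 + κ * Real.log (4 * V / η + 1) := by
    have hV1 : 0 ≤ Real.log (4 * V / η + 1) := Real.log_nonneg (by
      have : 0 ≤ 4 * V / η := by positivity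
      linarith)
    refine CH_two hq gi Z E (Real.log_nonneg (by norm_num)) hV1 (fun r hr hrE => ?_)
      (fun r hr hrq => ?_) hE
    · refine (CH_le_int hr.nonneg hr.sum_one gi Z (fun _ => 8) fun ω ω' hω hω' hz => ?_).trans
        (le_of_eq ?_)
      · have a1 := (hrE ω hω).2
        have a2 := (hrE ω' hω').2
        rw [hEd] at a1 a2
        have b1 := a1.2.2
        have b2 := a2.2.2
        rw [hz] at b1
        have b3 : |η * gi ω - η * gi ω'| ≤ 8 * η := by
          rw [abs_le] at b1 b2 ⊢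
          constructor <;> linarith
        rw [← mul_sub, abs_mul, abs_of_pos hη] at b3
        push_cast
        have : |(gi ω : ℝ) - gi ω'| ≤ 8 := by
          by_contra hcon
          push Not at hcon
          have := mul_lt_mul_of_pos_left hcon hη
          linarith
        exact this
      · rw [Ex_const hr.sum_one]
        norm_num
    · refine (CH_le_int hr.nonneg hr.sum_one gi Z (fun _ => 2 * V / η) fun ω ω' hω hω' hz =>
        ?_).trans (le_of_eq ?_)
      · have b1 := hg ω (hrq ω hω)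
        have b2 := hg ω' (hrq ω' hω')
        push_cast
        rw [le_div_iff₀ hη]
        have b3 : |η * gi ω - η * gi ω'| ≤ 2 * V := by
          rw [abs_le] at b1 b2 ⊢
          constructor <;> linarith
        rw [← mul_sub, abs_mul, abs_of_pos hη] at b3
        linarith
      · rw [Ex_const hr.sum_one]
        congr 1
        ring
  -- (iv) the height over the slope
  have i4 : CH q W (fun ω => (U ω / (m : ℤ), Z ω)) ≤ Real.log 2 +
      Real.log (4 * (V + 2) * K + 9) + κ * Real.log (4 * M + 4 * K + 4 * V * m + 5) := by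
    have hVm : (0 : ℝ) ≤ V * m := by positivity
    have hVK : (0 : ℝ) ≤ (V + 2) * K := by positivity
    refine CH_two hq W _ E (Real.log_nonneg (by linarith)) (Real.log_nonneg (by linarith))
      (fun r hr hrE => ?_) (fun r hr hrq => ?_) hE
    · refine (CH_le_int hr.nonneg hr.sum_one W _ (fun _ => 2 * ((V + 2) * K + 2)) fun ω ω' hω hω' hz =>
        ?_).trans (le_of_eq ?_)
      · -- near a function of the condition
        have key : ∀ ω, 0 < r ω → |(W ω : ℝ) - (b (Z ω) - k' (Z ω) / k (Z ω) * (a (Z ω) -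
            m * ((U ω / (m : ℤ) : ℤ) : ℝ)))| ≤ (V + 2) * K + 2 := by
          intro ω hω
          obtain ⟨q0, q1⟩ := hrE ω hω
          rw [hEd] at q1
          obtain ⟨r1, r2, -⟩ := q1
          have hkp : 0 < |k (Z ω)| := by linarith
          have hk0 : k (Z ω) ≠ 0 := abs_pos.mp hkp
          obtain ⟨c, hc⟩ : ∃ c, c = k' (Z ω) / k (Z ω) := ⟨_, rfl⟩
          obtain ⟨G, hG⟩ : ∃ G, G = η * gi ω := ⟨_, rfl⟩
          have hGV : |G| ≤ V := by rw [hG]; exact hg ω q0
          rw [← hG] at r2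
          have hck : k' (Z ω) = c * k (Z ω) := by rw [hc]; field_simp
          have r3 : |c - G| ≤ 1 / m := by
            rw [hck, ← sub_mul, abs_mul] at r2
            by_contra hcon
            push Not at hcon
            have := mul_lt_mul_of_pos_right hcon hkp
            have e1 : 1 / (m : ℝ) * |k (Z ω)| = |k (Z ω)| / m := by ring
            linarith
          have r4 : (1 : ℝ) / m ≤ 1 := by
            rw [div_le_one hm0]
            exact hmr
          have r5 : |c| ≤ V + 1 := by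
            have := abs_add_le (c - G) G
            rw [sub_add_cancel] at this
            linarith
          obtain ⟨m1, m2, m3⟩ := emod_bd hm (U ω)
          obtain ⟨x, hx⟩ : ∃ x : ℝ, x = ((U ω % (m : ℤ) : ℤ) : ℝ) := ⟨_, rfl⟩
          obtain ⟨y, hy⟩ : ∃ y : ℝ, y = ((U ω / (m : ℤ) : ℤ) : ℝ) := ⟨_, rfl⟩
          rw [← hx, ← hy] at m3
          rw [← hx] at m1 m2
          have w1 : (W ω : ℝ) = N ω - (⌊G * x⌋ : ℤ) := by
            rw [hWω, ← hG, hx]
            unfold wht
            push_cast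
            rfl
          have f1 := Int.floor_le (G * x)
          have f2 := Int.lt_floor_add_one (G * x)
          have s1 := hU ω q0
          have s2 := hN ω q0
          rw [hck] at s2
          -- the difference
          have e1 : (W ω : ℝ) - (b (Z ω) - c * (a (Z ω) - m * y)) =
              ((N ω : ℝ) - (b (Z ω) - c * k (Z ω) * T1 ω / M)) -
              c * ((U ω : ℝ) - (a (Z ω) - k (Z ω) * T1 ω / M)) + (c - G) * x +
              (G * x - (⌊G * x⌋ : ℤ)) := by
            rw [w1, m3]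
            ring
          rw [← hc, ← hy, e1]
          have t1 : |c * ((U ω : ℝ) - (a (Z ω) - k (Z ω) * T1 ω / M))| ≤ (V + 1) * K := by
            rw [abs_mul]
            exact mul_le_mul r5 s1 (abs_nonneg _) (by linarith)
          have t2 : |(c - G) * x| ≤ 1 := by
            rw [abs_mul, abs_of_nonneg m1]
            calc |c - G| * x ≤ 1 / m * m := mul_le_mul r3 m2 m1 (by positivity)
              _ = 1 := by field_simp
          have t3 : |G * x - (⌊G * x⌋ : ℤ)| ≤ 1 := by
            rw [abs_le]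
            constructor <;> linarith
          refine (abs_add_le _ _).trans ?_
          refine (add_le_add ((abs_add_le _ _).trans (add_le_add (abs_sub _ _) le_rfl))
            le_rfl).trans ?_
          linarith
        have a1 := key ω hω
        have a2 := key ω' hω'
        have z1 : U ω / (m : ℤ) = U ω' / (m : ℤ) := (Prod.ext_iff.mp hz).1
        have z2 : Z ω = Z ω' := (Prod.ext_iff.mp hz).2
        rw [← z1, ← z2] at a2
        push_cast
        rw [abs_le] at a1 a2 ⊢
        constructor <;> linarith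
      · rw [Ex_const hr.sum_one]
        congr 1
        ring
    · refine (CH_le_int hr.nonneg hr.sum_one W _ (fun _ => 2 * M + 2 * K + 2 * V * m + 2)
        fun ω ω' hω hω' hz => ?_).trans (le_of_eq ?_)
      · have z2 : Z ω = Z ω' := (Prod.ext_iff.mp hz).2
        have n1 := hN ω (hrq ω hω)
        have n2 := hN ω' (hrq ω' hω')
        rw [← z2] at n2
        have g : ∀ ω'', 0 < q ω'' → |k' (Z ω) * T1 ω'' / M| ≤ M := by
          intro ω'' hω''
          have t1 : |(T1 ω'' : ℝ)| ≤ M := by exact_mod_cast h1 ω'' hω''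
          rw [abs_div, abs_mul, abs_of_pos hM0, div_le_iff₀ hM0]
          exact mul_le_mul (hk' ω (hrq ω hω)) t1 (abs_nonneg _) hM0.le
        have g1 := g ω (hrq ω hω)
        have g2 := g ω' (hrq ω' hω')
        have w1 := wht_near hm (hg ω (hrq ω hω)) (U ω) (N ω)
        have w2 := wht_near hm (hg ω' (hrq ω' hω')) (U ω') (N ω')
        rw [← hWω] at w1 w2
        push_cast at w1 w2 ⊢
        rw [abs_le] at n1 n2 g1 g2 w1 w2 ⊢
        constructor <;> linarith
      · rw [Ex_const hr.sum_one]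
        congr 1
        ring
  -- (v) the first digits of `N`
  have i5 : CH q (fun ω => N ω / (m : ℤ)) (fun ω => (W ω, ((U ω / (m : ℤ)), (gi ω, Z ω)))) ≤
      Real.log (4 * V + 7) := by
    refine (CH_le_int h0 hq.sum_one _ _ (fun _ => 2 * V + 3) fun ω ω' hω hω' hz => ?_).trans
      (le_of_eq ?_)
    · refine (ediv_diff hm (N ω) (N ω')).trans ?_
      have z1 : W ω = W ω' := (Prod.ext_iff.mp hz).1
      have w1 := wht_near hm (hg ω hω) (U ω) (N ω)
      have w2 := wht_near hm (hg ω' hω') (U ω') (N ω')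
      rw [← hWω] at w1 w2
      rw [← z1] at w2
      have g3 : |((N ω : ℝ) - N ω')| ≤ 2 * (V * m + 1) := by
        push_cast at w1 w2
        rw [abs_le] at w1 w2 ⊢
        constructor <;> linarith
      have g4 : |((N ω : ℝ) - N ω')| / m ≤ 2 * V + 2 := by
        rw [div_le_iff₀ hm0]
        have : (2 * V + 2) * m = 2 * (V * m + m) := by ring
        rw [this]
        linarith
      linarith
    · rw [Ex_const hq.sum_one]
      congr 1
      ring
  -- the assembly
  have s1 : CH q (fun ω => (W ω, ((U ω / (m : ℤ), N ω / (m : ℤ)), gi ω))) Z ≤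
      CH q (fun ω => U ω / (m : ℤ)) Z + (Real.log 2 + Real.log 17 +
      κ * Real.log (4 * V / η + 1)) + (Real.log 2 + Real.log (4 * (V + 2) * K + 9) +
      κ * Real.log (4 * M + 4 * K + 4 * V * m + 5)) + Real.log (4 * V + 7) := by
    have c1 : CH q (fun ω => (W ω, ((U ω / (m : ℤ), N ω / (m : ℤ)), gi ω))) Z ≤
        CH q (fun ω => (gi ω, (U ω / (m : ℤ), (W ω, N ω / (m : ℤ))))) Z :=
      CH_mono_left h0 fun ω ω' _ _ hz => by
        simp only [Prod.mk.injEq] at hz ⊢
        tauto
    have c2 := CH_chain2 h0 gi (fun ω => (U ω / (m : ℤ), (W ω, N ω / (m : ℤ)))) Z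
    have c3 := CH_chain2 h0 (fun ω => U ω / (m : ℤ)) (fun ω => (W ω, N ω / (m : ℤ)))
      (fun ω => (gi ω, Z ω))
    have c4 := CH_chain2 h0 W (fun ω => N ω / (m : ℤ)) (fun ω => (U ω / (m : ℤ), (gi ω, Z ω)))
    have c5 : CH q (fun ω => U ω / (m : ℤ)) (fun ω => (gi ω, Z ω)) ≤
        CH q (fun ω => U ω / (m : ℤ)) Z :=
      CH_mono_cond h0 fun ω ω' _ _ hz => (Prod.ext_iff.mp hz).2
    have c6 : CH q W (fun ω => (U ω / (m : ℤ), (gi ω, Z ω))) ≤
        CH q W (fun ω => (U ω / (m : ℤ), Z ω)) :=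
      CH_mono_cond h0 fun ω ω' _ _ hz => by
        simp only [Prod.mk.injEq] at hz ⊢
        exact ⟨hz.1, hz.2.2⟩
    linarith
  have s2 : CH q T1 Z - CH q (fun ω => (W ω, ((U ω / (m : ℤ), N ω / (m : ℤ)), gi ω))) Z ≤
      CH q T1 (fun ω => ((W ω, ((U ω / (m : ℤ), N ω / (m : ℤ)), gi ω)), Z ω)) :=
    CH_cond_add h0 T1 _ Z
  have s3 : CH q T1 (fun ω => ((W ω, ((U ω / (m : ℤ), N ω / (m : ℤ)), gi ω)), Z ω)) ≤
      CH q U (fun ω => ((W ω, ((U ω / (m : ℤ), N ω / (m : ℤ)), gi ω)), Z ω)) +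
      CH q T1 (fun ω => (U ω, Z ω)) := by
    have d1 := CH_le_add h0 T1 U (fun ω => ((W ω, ((U ω / (m : ℤ), N ω / (m : ℤ)), gi ω)), Z ω))
    have d2 : CH q T1 (fun ω => (U ω, ((W ω, ((U ω / (m : ℤ), N ω / (m : ℤ)), gi ω)), Z ω))) ≤
        CH q T1 (fun ω => (U ω, Z ω)) :=
      CH_mono_cond h0 fun ω ω' _ _ hz => by
        simp only [Prod.mk.injEq] at hz ⊢
        exact ⟨hz.1, hz.2.2⟩
    linarith
  have s4 : CH q U (fun ω => ((W ω, ((U ω / (m : ℤ), N ω / (m : ℤ)), gi ω)), Z ω)) ≤
      CH q U (fun ω => (W ω, ((U ω / (m : ℤ), N ω / (m : ℤ)), (gi ω, Z ω)))) :=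
    CH_mono_cond h0 fun ω ω' _ _ hz => by
      simp only [Prod.mk.injEq] at hz ⊢
      tauto
  have hlM : Real.log M ≤ Real.log (2 * M + 1) := Real.log_le_log hM0 (by linarith)
  have s5 : CH q U (fun ω => (W ω, ((U ω / (m : ℤ), N ω / (m : ℤ)), (gi ω, Z ω)))) =
      CH q U (fun ω => (wht m (η * gi ω) (U ω) (N ω), ((U ω / m, N ω / m), (gi ω, Z ω)))) := by
    rw [hW]
  rw [← s5]
  unfold errO
  linarith

end Pool.TIE16
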