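import Pool.Agent.H46.PR.Eps

/-!
# Ties: the slope of a line

`sel_glue`: in a coupling over a common value there is a choice of the second sample as a function of
the value. `P3_asc`: two hops are two pairs over the middle line. `cells_nf`: the cells of the nonfull
height. `slope_hops`: the slopes of the displacements of two hops are near.
-/

set_option autoImplicit false

namespace Pool.TIE16

open Finset Real
open Pool.Agent.H49.Ent Pool.Agent.H32.Dense Pool.STK Pool.OWN68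
open Pool.BFL (Pb)
open Pool.PR46

/-! ### Couplings -/

open Classical in
/-- **A choice.** -/
theorem sel_glue {A B T : Type} [Fintype A] [Fintype B] [Nonempty B] {q : A → ℝ} {r : B → ℝ}
    (hq : ∀ a, 0 ≤ q a) (hr : ∀ b, 0 ≤ r b) {X : A → T} {Y : B → T}
    (hZ : ∀ z, law q X z = law r Y z) (E : A → B → Prop) :
    ∃ f : T → B, (∀ a, 0 < q a → Y (f (X a)) = X a ∧ 0 < r (f (X a))) ∧
      Pb q (fun a => E a (f (X a))) ≤ Pb (glue q r X Y) (fun w => E w.1 w.2) := by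
  obtain ⟨φ, hφ⟩ : ∃ φ : T → B → ℝ, ∀ z b, φ z b = ∑ a, (if X a = z ∧ E a b then q a else 0) :=
    ⟨_, fun _ _ => rfl⟩
  have hex : ∀ z : T, ∃ b : B, (∃ b', 0 < r b' ∧ Y b' = z) →
      (0 < r b ∧ Y b = z) ∧ ∀ b', 0 < r b' → Y b' = z → φ z b ≤ φ z b' := by
    intro z
    by_cases h : ∃ b', 0 < r b' ∧ Y b' = z
    · obtain ⟨b', h1, h2⟩ := h
      obtain ⟨b, hb, hm⟩ := (univ.filter fun b => 0 < r b ∧ Y b = z).exists_min_image (φ z)
        ⟨b', mem_filter.mpr ⟨mem_univ _, h1, h2⟩⟩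
      refine ⟨b, fun _ => ⟨(mem_filter.mp hb).2, fun b'' h3 h4 => hm b'' ?_⟩⟩
      exact mem_filter.mpr ⟨mem_univ _, h3, h4⟩
    · exact ⟨Classical.arbitrary B, fun h' => absurd h' h⟩
  choose f hf using hex
  have hpos : ∀ a, 0 < q a → ∃ b', 0 < r b' ∧ Y b' = X a := by
    intro a ha
    have h1 : 0 < law r Y (X a) := by
      rw [← hZ]
      exact law_pos hq X ha
    by_contra hcon
    push Not at hcon
    have h2 : law r Y (X a) = 0 := by
      unfold law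
      refine Finset.sum_eq_zero fun b _ => ?_
      by_cases hb : Y b = X a
      · rw [if_pos hb]
        rcases (hr b).eq_or_lt with h3 | h3
        · exact h3.symm
        · exact absurd hb (hcon b h3)
      · rw [if_neg hb]
    linarith
  refine ⟨f, fun a ha => ⟨((hf _ (hpos a ha)).1).2, ((hf _ (hpos a ha)).1).1⟩, ?_⟩
  rw [← Pb_sum, ← Pb_sum]
  -- both sides as double sums
  have e1 : ∀ a, (if E a (f (X a)) then q a else 0) =
      ∑ b, (if X a = Y b then q a * r b / law q X (X a) * (if E a (f (X a)) then 1 else 0)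
        else 0) := by
    intro a
    have h1 := glue_fst (p₁ := q) (p₂ := r) (Z₁ := X) (Z₂ := Y) hq hZ a
    have h2 : ∀ b, (if X a = Y b then q a * r b / law q X (X a) * (if E a (f (X a)) then (1 : ℝ)
        else 0) else 0) = glue q r X Y (a, b) * (if E a (f (X a)) then 1 else 0) := by
      intro b
      unfold glue
      by_cases h3 : X a = Y b
      · rw [if_pos h3, if_pos h3]
      · rw [if_neg h3, if_neg h3, zero_mul]
    rw [Finset.sum_congr rfl fun b _ => h2 b, ← Finset.sum_mul, h1]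
    split_ifs <;> simp
  rw [Finset.sum_congr rfl fun a _ => e1 a, Finset.sum_comm, Fintype.sum_prod_type_right]
  refine Finset.sum_le_sum fun b _ => ?_
  rcases (hr b).eq_or_lt with hb | hb
  · refine (Finset.sum_nonpos fun a _ => ?_).trans (Finset.sum_nonneg fun a _ => ?_)
    · rw [← hb]
      simp
    · split_ifs
      · exact glue_nonneg hq hr _
      · exact le_rfl
  have g1 : ∑ a, (if X a = Y b then q a * r b / law q X (X a) * (if E a (f (X a)) then (1 : ℝ)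
      else 0) else 0) = r b / law q X (Y b) * φ (Y b) (f (Y b)) := by
    rw [hφ, Finset.mul_sum]
    refine Finset.sum_congr rfl fun a _ => ?_
    by_cases h3 : X a = Y b
    · rw [if_pos h3, h3]
      by_cases h4 : E a (f (Y b))
      · rw [if_pos h4, if_pos ⟨rfl, h4⟩]
        ring
      · rw [if_neg h4, if_neg (fun h => h4 h.2)]
        ring
    · rw [if_neg h3, if_neg (fun h => h3 h.1), mul_zero]
  have g2 : ∑ a, (if E (a, b).1 (a, b).2 then glue q r X Y (a, b) else 0) =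
      r b / law q X (Y b) * φ (Y b) b := by
    rw [hφ, Finset.mul_sum]
    refine Finset.sum_congr rfl fun a _ => ?_
    show (if E a b then glue q r X Y (a, b) else 0) = _
    unfold glue
    show (if E a b then (if X a = Y b then q a * r b / law q X (X a) else 0) else 0) = _
    by_cases h3 : X a = Y b
    · by_cases h4 : E a b
      · rw [if_pos h4, if_pos h3, if_pos ⟨h3, h4⟩, h3]
        ring
      · rw [if_neg h4, if_neg (fun h => h4 h.2), mul_zero]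
    · have e3 : ¬ (X a = Y b ∧ E a b) := fun h => h3 h.1
      rw [if_neg e3, mul_zero, if_neg h3]
      split_ifs <;> rfl
  rw [g1]
  refine le_trans ?_ (le_of_eq g2.symm)
  refine mul_le_mul_of_nonneg_left ?_ (div_nonneg hb.le (law_nonneg hq _ _))
  exact (hf (Y b) ⟨b, hb, rfl⟩).2 b hb rfl

/-- **Two hops are two pairs over the middle line.** -/
theorem P3_asc {Ω Λ Γ₁ Γ₂ : Type} [Fintype Ω] {p : Ω → ℝ} (hp : IsLaw p) (L : Ω → Λ)
    (G₁ : Ω → Γ₁) (G₂ : Ω → Γ₂) (w : ((Ω × Ω) × Ω) × Ω) :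
    P3 p L G₁ G₂ w = glue (P1 p G₁) (glue p p G₂ G₂) (fun a => L a.2) (fun b => L b.1)
      (w.1.1, (w.1.2, w.2)) := by
  classical
  have e1 : law (P2 p L G₁) (fun w => G₂ w.2) (G₂ w.1.2) = law p G₂ (G₂ w.1.2) :=
    P3_z hp L G₁ G₂ _
  unfold P3
  unfold glue
  show (if G₂ w.1.2 = G₂ w.2 then P2 p L G₁ w.1 * p w.2 / law (P2 p L G₁) (fun w => G₂ w.2)
    (G₂ w.1.2) else 0) = _
  rw [e1]
  unfold P2
  unfold glue
  show (if G₂ w.1.2 = G₂ w.2 then (if L w.1.1.2 = L w.1.2 then P1 p G₁ w.1.1 * p w.1.2 /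
    law (P1 p G₁) (fun w => L w.2) (L w.1.1.2) else 0) * p w.2 / law p G₂ (G₂ w.1.2) else 0) =
    (if L w.1.1.2 = L w.1.2 then P1 p G₁ w.1.1 * (if G₂ w.1.2 = G₂ w.2 then p w.1.2 * p w.2 /
      law p G₂ (G₂ w.1.2) else 0) / law (P1 p G₁) (fun w => L w.2) (L w.1.1.2) else 0)
  by_cases h1 : G₂ w.1.2 = G₂ w.2
  · by_cases h2 : L w.1.1.2 = L w.1.2
    · rw [if_pos h1, if_pos h2, if_pos h2, if_pos h1]
      ring
    · rw [if_pos h1, if_neg h2, if_neg h2, zero_mul, zero_div]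
  · rw [if_neg h1]
    by_cases h2 : L w.1.1.2 = L w.1.2
    · rw [if_pos h2, if_neg h1]
      ring
    · rw [if_neg h2]

/-- Events of two hops. -/
theorem Pb_P3 {Ω Λ Γ₁ Γ₂ : Type} [Fintype Ω] {p : Ω → ℝ} (hp : IsLaw p) (L : Ω → Λ)
    (G₁ : Ω → Γ₁) (G₂ : Ω → Γ₂) (E : (Ω × Ω) × (Ω × Ω) → Prop) :
    Pb (glue (P1 p G₁) (glue p p G₂ G₂) (fun a => L a.2) (fun b => L b.1)) E =
      Pb (P4 p L G₁ G₂) (fun w => E (w.1.1.1, (w.1.1.2, w.1.2))) := by
  classical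
  rw [Pb_marg (P4_f hp L G₁ G₂) (fun w => E (w.1.1, (w.1.2, w.2))), ← Pb_sum, ← Pb_sum,
    ← (Equiv.prodAssoc (Ω × Ω) Ω Ω).sum_comp]
  refine Finset.sum_congr rfl fun w _ => ?_
  rw [P3_asc hp L G₁ G₂ w]
  rfl

theorem asc_z {Ω Λ Γ₁ Γ₂ : Type} [Fintype Ω] {p : Ω → ℝ} (hp : IsLaw p) (L : Ω → Λ)
    (G₁ : Ω → Γ₁) (G₂ : Ω → Γ₂) (z : Λ) :
    law (P1 p G₁) (fun a => L a.2) z = law (glue p p G₂ G₂) (fun b => L b.1) z := by
  rw [P2_z hp L G₁ z]
  exact ((P1_f hp G₂).law L z).symm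

/-! ### The cells -/

/-- **The cells of the nonfull height.** -/
theorem cells_nf (K : ℕ) {h lam η : ℝ} (hh : 0 < h) (hh1 : h ≤ 1) (hlam : 0 < lam) (hη : 0 < η)
    (hη1 : η ≤ 1) :
    ∃ (J : ℕ) (R : ℝ), 1 ≤ R ∧ J / R ≤ η ∧ ∃ c₀ > 0, ∃ δ > 0, ∃ Q₀ : ℕ, ∀ Q ≥ Q₀, ∃ k₀ : ℕ,
      lam * Q ≤ k₀ ∧ (k₀ : ℝ) ≤ lam * Q + 1 ∧ ∀ X M : ℕ, X ≤ Q → 1 ≤ M → M ≤ 2 ^ X →
      ∀ {Ω Λ 𝒞 𝒟 : Type} [Fintype Ω] {p : Ω → ℝ}, IsLaw p → ∀ {L : Ω → Λ} {t : Ω → ℤ} {C : Λ → 𝒞}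
      {D : Λ → 𝒟} {u n : Λ → ℤ → ℤ},
      (∀ k ≤ X + 1, ∀ E : Ω → Prop, c₀ ≤ Pb p E →
        CH (cond p E True) (fun ω => n (L ω) (t ω)) (fun ω => ((n (L ω) (t ω) / 2 ^ k,
          u (L ω) (t ω)), (t ω, (C (L ω), D (L ω))))) ≤ (1 - h) * k * Real.log 2 + δ * Q) →
      ∃ (Vs Us : ℕ → ℝ) (ms : ℕ → ℕ), Cells p M K (2 ^ k₀) R (δ * Q) L t C D u n J Vs Us ms := by
  have hl2 : 0 < Real.log 2 := Real.log_pos (by norm_num)
  obtain ⟨J, hJ⟩ : ∃ J : ℕ, J = ⌈16 / (h * lam)⌉₊ := ⟨_, rfl⟩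
  have hJr : 16 / (h * lam) ≤ J := by rw [hJ]; exact Nat.le_ceil _
  have hJ0 : 0 < J := by
    have : (0 : ℝ) < J := lt_of_lt_of_le (by positivity) hJr
    exact_mod_cast this
  have hJ1 : (1 : ℝ) ≤ J := by exact_mod_cast hJ0
  obtain ⟨R, hR⟩ : ∃ R : ℝ, R = J / η := ⟨_, rfl⟩
  have hR1 : 1 ≤ R := by rw [hR, le_div_iff₀ hη]; linarith
  have hR0 : 0 < R := by linarith
  have hJR : J / R ≤ η := by
    rw [hR, div_div_eq_mul_div, mul_div_assoc, mul_comm, div_mul_cancel₀]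
    linarith
  obtain ⟨θ, hθ⟩ : ∃ θ : ℝ, θ = h * lam / 64 := ⟨_, rfl⟩
  have hθ0 : 0 < θ := by rw [hθ]; positivity
  obtain ⟨N, hN⟩ : ∃ N : ℕ, R / (1 + h / 2) ^ N ≤ θ := by
    obtain ⟨N, hN⟩ := pow_unbounded_of_one_lt (R / θ) (by linarith : 1 < 1 + h / 2)
    refine ⟨N, ?_⟩
    rw [div_le_iff₀ (by positivity)]
    rw [div_lt_iff₀ hθ0] at hN
    linarith
  obtain ⟨c₀, hc₀⟩ : ∃ c₀ : ℝ, c₀ = θ * (h / 2) / (R * (1 + h / 2)) := ⟨_, rfl⟩
  have hc₀0 : 0 < c₀ := by rw [hc₀]; positivity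
  have hc₀2 : R * c₀ * (1 + h / 2) / (h / 2) ≤ θ := by
    rw [hc₀]
    refine le_of_eq ?_
    field_simp
  obtain ⟨δ, hδ⟩ : ∃ δ : ℝ, δ = h * lam / 16 * Real.log 2 / (2 + 6 * R) := ⟨_, rfl⟩
  have hδ0 : 0 < δ := by rw [hδ]; positivity
  have hδ2 : (2 + 6 * R) * δ ≤ h * lam / 16 * Real.log 2 := by
    rw [hδ, mul_div_cancel₀]
    positivity
  obtain ⟨c₁, hc₁⟩ : ∃ c₁ : ℝ, c₁ = |Real.log (N + 1)| + |Real.log (cst (2 * K))| := ⟨_, rfl⟩
  have hc₁0 : 0 ≤ c₁ := by rw [hc₁]; positivity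
  refine ⟨J, R, hR1, hJR, c₀, hc₀0, δ, hδ0,
    ⌈(16 * c₁ / (h * lam * Real.log 2) + 8 / (h * lam) + 4)⌉₊, ?_⟩
  intro Q hQ
  have hQr : 16 * c₁ / (h * lam * Real.log 2) + 8 / (h * lam) + 4 ≤ Q :=
    (Nat.le_ceil _).trans (by exact_mod_cast hQ)
  have q1 : 0 ≤ 16 * c₁ / (h * lam * Real.log 2) := by positivity
  have q2 : 0 ≤ 8 / (h * lam) := by positivity
  have Q1 : 16 * c₁ / (h * lam * Real.log 2) ≤ Q := by linarith
  have Q2 : 8 / (h * lam) ≤ Q := by linarith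
  have Q7 : (4 : ℝ) ≤ Q := by linarith
  rw [div_le_iff₀ (by positivity)] at Q1 Q2
  have hQ0 : (0 : ℝ) < Q := by linarith
  obtain ⟨k₀, hk₀⟩ : ∃ k₀ : ℕ, k₀ = ⌈lam * Q⌉₊ := ⟨_, rfl⟩
  have hk1 : lam * Q ≤ k₀ := by rw [hk₀]; exact Nat.le_ceil _
  have hk2 : (k₀ : ℝ) ≤ lam * Q + 1 := by
    rw [hk₀]
    exact (Nat.ceil_lt_add_one (by positivity)).le
  refine ⟨k₀, hk1, hk2, ?_⟩
  intro X M hXQ hM hMX Ω Λ 𝒞 𝒟 _ p hp L t C D u n hnf
  have hXQr : (X : ℝ) ≤ Q := by exact_mod_cast hXQ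
  have hMr : (1 : ℝ) ≤ M := by exact_mod_cast hM
  have hM0 : (0 : ℝ) < M := by linarith
  have hMXr : (M : ℝ) ≤ 2 ^ X := by exact_mod_cast hMX
  have hK0 : (0 : ℝ) ≤ K := Nat.cast_nonneg K
  obtain ⟨s, hs⟩ : ∃ s : ℕ, s = ⌊h * k₀ / 4⌋₊ := ⟨_, rfl⟩
  have hs1 : (s : ℝ) ≤ h * k₀ / 4 := by rw [hs]; exact Nat.floor_le (by positivity)
  have hs2 : h * lam * Q / 8 ≤ s := by
    have g1 : h * k₀ / 4 < s + 1 := by rw [hs]; exact Nat.lt_floor_add_one _
    have g2 : h * (lam * Q) ≤ h * k₀ := mul_le_mul_of_nonneg_left hk1 hh.le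
    have g3 : 8 ≤ h * lam * Q := by linarith
    linarith
  have hJs : X + 1 ≤ k₀ + J * s := by
    have g1 : (2 : ℝ) * Q ≤ J * s := by
      have g2 : 16 / (h * lam) * (h * lam * Q / 8) ≤ J * s :=
        mul_le_mul hJr hs2 (by positivity) (by linarith)
      have g3 : 16 / (h * lam) * (h * lam * Q / 8) = 2 * Q := by
        field_simp
        ring
      linarith
    have g4 : ((X + 1 : ℕ) : ℝ) ≤ ((k₀ + J * s : ℕ) : ℝ) := by
      push_cast
      have : (0 : ℝ) ≤ k₀ := Nat.cast_nonneg _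
      linarith
    exact_mod_cast g4
  obtain ⟨kk, hkk⟩ : ∃ kk : ℕ → ℕ, ∀ j, kk j = min (k₀ + (j + 1) * s) (X + 1) := ⟨_, fun _ => rfl⟩
  have hkk1 : ∀ j, (kk j : ℝ) ≤ k₀ + (j + 1) * s := fun j => by
    have : kk j ≤ k₀ + (j + 1) * s := by rw [hkk]; exact min_le_left _ _
    exact_mod_cast this
  have hkk2 : ∀ j, kk j ≤ X + 1 := fun j => by rw [hkk]; exact min_le_right _ _
  refine ⟨fun j => (2 : ℝ) ^ (k₀ + j * s),
      fun j => (1 + h / 2) * ((1 - h) * kk j * Real.log 2 + δ * Q) +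
        (R * c₀ * (1 + h / 2) / (h / 2) + R / (1 + h / 2) ^ N) * ((Q + 3) * Real.log 2) +
          Real.log (N + 1), fun j => 2 ^ kk j, ?_⟩
  refine ⟨fun j _ => one_le_pow₀ (by norm_num), fun x hx1 hx2 => ?_, fun j _ q hq hqd => ?_,
      fun j _ => ?_⟩
  · obtain ⟨j, hj, hj1, hj2⟩ := cells_cov hJs hJ0 hx1 (hx2.trans (by
        rw [pow_succ]
        linarith))
    refine ⟨j, hj, hj1, hj2.trans (le_of_eq ?_)⟩
    rw [← hkk]
    push_cast
    rfl
  · have hcast : ∀ ω, n (L ω) (t ω) / (((2 ^ kk j : ℕ) : ℤ)) = n (L ω) (t ω) / 2 ^ kk j :=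
        fun ω => by push_cast; rfl
    have hcast2 : (fun ω => ((n (L ω) (t ω) / (((2 ^ kk j : ℕ) : ℤ)), u (L ω) (t ω)),
          (t ω, (C (L ω), D (L ω))))) = (fun ω => ((n (L ω) (t ω) / 2 ^ kk j, u (L ω) (t ω)),
          (t ω, (C (L ω), D (L ω))))) := by
      funext ω
      rw [hcast]
    rw [hcast2]
    refine Pool.NFD.nf_dens hp hq hR1 hqd hc₀0 (by positivity : 0 < h / 2)
        (fun ω => n (L ω) (t ω)) (fun ω => ((n (L ω) (t ω) / 2 ^ kk j, u (L ω) (t ω)),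
          (t ω, (C (L ω), D (L ω))))) (L := N) ?_ ?_ (fun A hA => hnf (kk j) (hkk2 j) A hA) ?_
    · have : 0 ≤ (1 - h) * kk j * Real.log 2 := by
        have : 0 ≤ 1 - h := by linarith
        positivity
      have := mul_pos hδ0 hQ0
      linarith
    · positivity
    · intro r hr _
      refine (CH_quot hr (fun ω => n (L ω) (t ω)) _ (k := kk j) fun ω ω' _ _ hz => ?_).trans ?_
      · have := (Prod.ext_iff.mp (Prod.ext_iff.mp hz).1).1
        exact this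
      · refine mul_le_mul_of_nonneg_right ?_ hl2.le
        have : (kk j : ℝ) ≤ X + 1 := by exact_mod_cast hkk2 j
        linarith
  · rw [Real.log_pow]
    have g1 : (1 + h / 2) * ((1 - h) * kk j * Real.log 2) ≤
          (1 - h / 2) * (k₀ + (j + 1) * s) * Real.log 2 := by
      have e1 : (1 + h / 2) * ((1 - h) * kk j * Real.log 2) =
            ((1 + h / 2) * (1 - h) * kk j) * Real.log 2 := by ring
      rw [e1]
      refine mul_le_mul_of_nonneg_right ?_ hl2.le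
      have e2 : (1 + h / 2) * (1 - h) ≤ 1 - h / 2 := by nlinarith
      have hkn : (0 : ℝ) ≤ kk j := Nat.cast_nonneg _
      exact (mul_le_mul_of_nonneg_right e2 hkn).trans
          (mul_le_mul_of_nonneg_left (hkk1 j) (by linarith))
    have g2 : (R * c₀ * (1 + h / 2) / (h / 2) + R / (1 + h / 2) ^ N) * ((Q + 3) * Real.log 2) ≤
          h * lam / 16 * Q * Real.log 2 := by
      have e1 : R * c₀ * (1 + h / 2) / (h / 2) + R / (1 + h / 2) ^ N ≤ 2 * θ := by linarith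
      have e2 : ((Q : ℝ) + 3) * Real.log 2 ≤ 2 * Q * Real.log 2 :=
          mul_le_mul_of_nonneg_right (by linarith) hl2.le
      refine (mul_le_mul e1 e2 (by positivity) (by positivity)).trans (le_of_eq ?_)
      rw [hθ]
      ring
    have g3 : (1 + h / 2) * (δ * Q) + 6 * R * (δ * Q) ≤ h * lam / 16 * Real.log 2 * Q := by
      have e1 : (1 + h / 2) * (δ * Q) + 6 * R * (δ * Q) ≤ (2 + 6 * R) * δ * Q := by
        have : (1 + h / 2) * (δ * Q) ≤ 2 * (δ * Q) :=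
            mul_le_mul_of_nonneg_right (by linarith) (by positivity)
        linarith
      exact e1.trans (mul_le_mul_of_nonneg_right hδ2 hQ0.le)
    have g4 : Real.log (N + 1) + Real.log (cst (2 * K)) ≤ h * lam / 16 * Q * Real.log 2 := by
      have e1 : Real.log (N + 1) + Real.log (cst (2 * K)) ≤ c₁ := by
        rw [hc₁]
        exact add_le_add (le_abs_self _) (le_abs_self _)
      linarith
    have g5 : (s : ℝ) * Real.log 2 ≤ h * k₀ / 4 * Real.log 2 :=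
        mul_le_mul_of_nonneg_right hs1 hl2.le
    have g6 : h * (lam * Q) * Real.log 2 ≤ h * k₀ * Real.log 2 :=
        mul_le_mul_of_nonneg_right (mul_le_mul_of_nonneg_left hk1 hh.le) hl2.le
    have g7 : 0 < h * (lam * Q) * Real.log 2 := by positivity
    have g8 : 0 ≤ h / 2 * (j * s) * Real.log 2 := by positivity
    have g9 : 0 ≤ h / 2 * s * Real.log 2 := by positivity
    push_cast
    have e3 : (1 - h / 2) * (k₀ + ((j : ℝ) + 1) * s) * Real.log 2 =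
          (k₀ + j * s) * Real.log 2 + s * Real.log 2 - h / 2 * k₀ * Real.log 2 -
            h / 2 * (j * s) * Real.log 2 - h / 2 * s * Real.log 2 := by ring
    rw [e3] at g1
    have e4 : (1 + h / 2) * ((1 - h) * kk j * Real.log 2 + δ * Q) =
        (1 + h / 2) * ((1 - h) * kk j * Real.log 2) + (1 + h / 2) * (δ * Q) := by ring
    rw [e4]
    linarith

end Pool.TIE16
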