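import Pool.Agent.H16.TIE.Sel

/-!
# Ties: the slope of the displacement

`slp`: the slope of the displacement of a pair of lines. `slope_hops`: the slopes of two hops are near.
`gam_ex`: the slope of the pairs over a record is a function of the line. `gam_near`: for two records
these functions are near.
-/

set_option autoImplicit false

namespace Pool.TIE16

open Finset Real
open Pool.Agent.H49.Ent Pool.Agent.H32.Dense Pool.STK Pool.OWN68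
open Pool.BFL (Pb)
open Pool.PR46

/-- **The slope of a displacement.** -/
noncomputable def slp {Ω Λ 𝒟 : Type} (L : Ω → Λ) (D : Λ → 𝒟) (du dn : 𝒟 → ℝ) (w : Ω × Ω) : ℝ :=
  (dn (D (L w.2)) - dn (D (L w.1))) / (du (D (L w.2)) - du (D (L w.1)))

theorem slp_swap {Ω Λ 𝒟 : Type} (L : Ω → Λ) (D : Λ → 𝒟) (du dn : 𝒟 → ℝ) (w : Ω × Ω) :
    slp L D du dn w.swap = slp L D du dn w := by
  unfold slp
  show (dn (D (L w.1)) - dn (D (L w.2))) / (du (D (L w.1)) - du (D (L w.2))) = _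
  rw [← neg_sub (dn (D (L w.2))) (dn (D (L w.1))), ← neg_sub (du (D (L w.2))) (du (D (L w.1))),
    neg_div_neg_eq]

theorem slp_smul {Ω Λ 𝒟 : Type} (L : Ω → Λ) (D : Λ → 𝒟) (du dn : 𝒟 → ℝ) {M : ℝ} (hM : M ≠ 0)
    (w : Ω × Ω) : slp L D (fun d => M * du d) (fun d => M * dn d) w = slp L D du dn w := by
  unfold slp
  rw [← mul_sub, ← mul_sub, mul_div_mul_left _ _ hM]

/-- The algebra. -/
theorem slp_alg {V B x₁ x₂ y₁ y₂ : ℝ} (hV : 0 ≤ V) (hB : 1 ≤ B) (h1 : B ≤ |x₁|) (h2 : B ≤ |x₂|)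
    (hf : frq x₁ x₂ y₁ y₂ < V) :
    |y₁ / x₁ - y₂ / x₂| ≤ V / B ∧ |y₁ / x₁| ≤ 2 * V ∧ |y₂ / x₂| ≤ 2 * V := by
  have hx1 : 0 < |x₁| := by linarith
  have hx2 : 0 < |x₂| := by linarith
  have hx1' : x₁ ≠ 0 := abs_pos.mp hx1
  have hx2' : x₂ ≠ 0 := abs_pos.mp hx2
  have hB0 : 0 < B := by linarith
  obtain ⟨X, hX⟩ : ∃ X, X = max 1 (max |x₁| |x₂|) := ⟨_, rfl⟩
  have hX0 : 0 < X := by rw [hX]; exact lt_max_of_lt_left one_pos
  have hX' : X = max |x₁| |x₂| := by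
    rw [hX]
    exact max_eq_right (hB.trans (h1.trans (le_max_left _ _)))
  have hF : frd x₁ x₂ y₁ y₂ < V * X := by
    unfold frq at hf
    rw [← hX, div_lt_iff₀ hX0] at hf
    exact hf
  have g1 : |x₁ * y₂ - x₂ * y₁| ≤ V * X := ((le_max_left _ _).trans_lt hF).le
  have g2 : |y₁| ≤ V * X := (((le_max_left _ _).trans (le_max_right _ _)).trans_lt hF).le
  have g3 : |y₂| ≤ V * X := (((le_max_right _ _).trans (le_max_right _ _)).trans_lt hF).le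
  have hxx : X * B ≤ |x₁| * |x₂| := by
    rw [hX']
    rcases le_total |x₁| |x₂| with h | h
    · rw [max_eq_right h, mul_comm |x₁|]
      exact mul_le_mul_of_nonneg_left h1 hx2.le
    · rw [max_eq_left h]
      exact mul_le_mul_of_nonneg_left h2 hx1.le
  have k1 : |y₁ / x₁ - y₂ / x₂| ≤ V / B := by
    have e : y₁ / x₁ - y₂ / x₂ = -(x₁ * y₂ - x₂ * y₁) / (x₁ * x₂) := by
      rw [div_sub_div _ _ hx1' hx2']
      congr 1
      ring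
    rw [e, abs_div, abs_neg, abs_mul, div_le_div_iff₀ (mul_pos hx1 hx2) hB0]
    calc |x₁ * y₂ - x₂ * y₁| * B ≤ V * X * B := mul_le_mul_of_nonneg_right g1 hB0.le
      _ = V * (X * B) := by ring
      _ ≤ V * (|x₁| * |x₂|) := mul_le_mul_of_nonneg_left hxx hV
  have hVB : V / B ≤ V := div_le_self hV hB
  rcases le_total |x₁| |x₂| with h | h
  · have k2 : |y₂ / x₂| ≤ V := by
      rw [abs_div, div_le_iff₀ hx2]
      rwa [hX', max_eq_right h] at g3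
    have k3 : |y₁ / x₁| ≤ |y₁ / x₁ - y₂ / x₂| + |y₂ / x₂| := by
      have := abs_add_le (y₁ / x₁ - y₂ / x₂) (y₂ / x₂)
      rwa [sub_add_cancel] at this
    exact ⟨k1, by linarith, by linarith⟩
  · have k2 : |y₁ / x₁| ≤ V := by
      rw [abs_div, div_le_iff₀ hx1]
      rwa [hX', max_eq_left h] at g2
    have k3 : |y₂ / x₂| ≤ |y₁ / x₁ - y₂ / x₂| + |y₁ / x₁| := by
      have := abs_add_le (y₂ / x₂ - y₁ / x₁) (y₁ / x₁)
      rw [sub_add_cancel, abs_sub_comm] at this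
      exact this
    exact ⟨k1, by linarith, by linarith⟩

/-- The good pairs of hops. -/
def GoodS {Ω Λ 𝒟 : Type} (L : Ω → Λ) (D : Λ → 𝒟) (du dn : 𝒟 → ℝ) (V B : ℝ)
    (w : (Ω × Ω) × (Ω × Ω)) : Prop :=
  |slp L D du dn w.1 - slp L D du dn w.2| ≤ V / B ∧ |slp L D du dn w.1| ≤ 2 * V ∧
    |slp L D du dn w.2| ≤ 2 * V

/-- **The slopes of two hops are near.** -/
theorem slope_hops {Ω Λ Γ₁ Γ₂ 𝒞 𝒟 𝒩₁ 𝒩₂ : Type} [Fintype Ω] {p : Ω → ℝ} (hp : IsLaw p)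
    {M K : ℕ} (hM : 1 ≤ M) {L : Ω → Λ} {t : Ω → ℤ} {G₁ : Ω → Γ₁} {G₂ : Ω → Γ₂} {C : Λ → 𝒞}
    {D : Λ → 𝒟} {N₁ : Λ → 𝒩₁} {N₂ : Λ → 𝒩₂} {u n : Λ → ℤ → ℤ} {du dn : 𝒟 → ℝ}
    {V R e : ℝ} (hR : 0 < R) (he : 0 ≤ e) (hV : 0 ≤ V) (hrec : Recs p M e L t G₁ G₂ C D N₁ N₂)
    (hd₁ : Disp p M K L t G₁ D u n du dn) (hd₂ : Disp p M K L t G₂ D u n du dn)
    {B δ₁ δ₂ : ℝ} (hB : 1 ≤ B)
    (hal₁ : Pb (glue p p G₁ G₁) (fun w => |du (D (L w.2)) - du (D (L w.1))| < B) ≤ δ₁)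
    (hal₂ : Pb (glue p p G₂ G₂) (fun w => |du (D (L w.2)) - du (D (L w.1))| < B) ≤ δ₂)
    {J : ℕ} {Vs Us : ℕ → ℝ} {ms : ℕ → ℕ} (hcel : Cells p M K V R e L t C D u n J Vs Us ms) :
    Pb (glue (P1 p G₁) (glue p p G₂ G₂) (fun a => L a.2) (fun b => L b.1))
      (fun w => ¬ GoodS L D du dn V B w) ≤ J / R + δ₁ + δ₂ := by
  have h0 := hp.nonneg
  have hMr : (1 : ℝ) ≤ M := by exact_mod_cast hM
  have hM0 : (0 : ℝ) < M := by linarith
  have hL4 := P4_law hp L G₁ G₂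
  have key := two_hops hp (K := 2 * K) hM L t G₁ G₂ C D N₁ N₂ u n
    (fun z => du z.2.2.1 - du (D z.2.2.2)) (fun z => du z.2.1 - du z.2.2.1)
    (fun z => dn z.2.2.1 - dn (D z.2.2.2)) (fun z => dn z.2.1 - dn z.2.2.1)
    (fun z => u z.2.2.2 z.1 + ((du z.2.2.1 - du (D z.2.2.2)) * z.1 +
      (du z.2.1 - du z.2.2.1) * z.1) / M)
    (fun z => n z.2.2.2 z.1 + ((dn z.2.2.1 - dn (D z.2.2.2)) * z.1 +
      (dn z.2.1 - dn z.2.2.1) * z.1) / M)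
    (V := V) hR he hrec.tb hrec.g1 hrec.g2 hrec.nd hrec.full hrec.i1 hrec.i2 (by
      intro ω₀ ω₁ ω₁' ω₂ p0 p1 p1' p2 e1 e2 e3 τ hτ z hz
      subst hz
      obtain ⟨b1, b2, b3⟩ := hd₁.dis ω₀ ω₁ p0 p1 e1
      obtain ⟨c1, c2, c3⟩ := hd₂.dis ω₁' ω₂ p1' p2 e3
      obtain ⟨b4, b5⟩ := b3 τ hτ
      obtain ⟨c4, c5⟩ := c3 τ hτ
      rw [← e2] at c1 c2 c4 c5
      refine ⟨b1, c1, b2, c2, ?_, ?_⟩
      · show |(u (L ω₂) τ : ℝ) - ((u (L ω₀) τ + ((du (D (L ω₁)) - du (D (L ω₀))) * τ +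
          (du (D (L ω₂)) - du (D (L ω₁))) * τ) / M) - ((du (D (L ω₁)) - du (D (L ω₀))) * t ω₀ +
          (du (D (L ω₂)) - du (D (L ω₁))) * t ω₁') / M)| ≤ ((2 * K : ℕ) : ℝ)
        have e : (u (L ω₂) τ : ℝ) - ((u (L ω₀) τ + ((du (D (L ω₁)) - du (D (L ω₀))) * τ +
          (du (D (L ω₂)) - du (D (L ω₁))) * τ) / M) - ((du (D (L ω₁)) - du (D (L ω₀))) * t ω₀ +
          (du (D (L ω₂)) - du (D (L ω₁))) * t ω₁') / M) =
          (((u (L ω₁) τ : ℝ) - u (L ω₀) τ) -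
            (du (D (L ω₁)) - du (D (L ω₀))) * (((τ : ℝ) - t ω₀) / M)) +
          (((u (L ω₂) τ : ℝ) - u (L ω₁) τ) -
            (du (D (L ω₂)) - du (D (L ω₁))) * (((τ : ℝ) - t ω₁') / M)) := by
          field_simp
          ring
        rw [e]
        refine (abs_add_le _ _).trans ?_
        push_cast
        linarith
      · show |(n (L ω₂) τ : ℝ) - ((n (L ω₀) τ + ((dn (D (L ω₁)) - dn (D (L ω₀))) * τ +
          (dn (D (L ω₂)) - dn (D (L ω₁))) * τ) / M) - ((dn (D (L ω₁)) - dn (D (L ω₀))) * t ω₀ +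
          (dn (D (L ω₂)) - dn (D (L ω₁))) * t ω₁') / M)| ≤ ((2 * K : ℕ) : ℝ)
        have e : (n (L ω₂) τ : ℝ) - ((n (L ω₀) τ + ((dn (D (L ω₁)) - dn (D (L ω₀))) * τ +
          (dn (D (L ω₂)) - dn (D (L ω₁))) * τ) / M) - ((dn (D (L ω₁)) - dn (D (L ω₀))) * t ω₀ +
          (dn (D (L ω₂)) - dn (D (L ω₁))) * t ω₁') / M) =
          (((n (L ω₁) τ : ℝ) - n (L ω₀) τ) -
            (dn (D (L ω₁)) - dn (D (L ω₀))) * (((τ : ℝ) - t ω₀) / M)) +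
          (((n (L ω₂) τ : ℝ) - n (L ω₁) τ) -
            (dn (D (L ω₂)) - dn (D (L ω₁))) * (((τ : ℝ) - t ω₁') / M)) := by
          field_simp
          ring
        rw [e]
        refine (abs_add_le _ _).trans ?_
        push_cast
        linarith) Vs Us ms hcel.one hcel.cov hcel.nf hcel.big
  have hpair := Pb_marg (P4_pair hp L G₁ G₂) (fun w => |du (D (L w.2)) - du (D (L w.1))| < B)
  have hpair1 := Pb_marg (P4_pair1 hp L G₁ G₂)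
    (fun w => |du (D (L w.2)) - du (D (L w.1))| < B)
  rw [Pb_P3 hp L G₁ G₂]
  have s1 := hpair1.le.trans hal₁
  have s2 := hpair.le.trans hal₂
  refine le_trans ?_ (add_le_add (add_le_add key s1) s2)
  refine (Pb_imp2 (H := fun w => |du (D (L w.1.2)) - du (D (L w.1.1.2))| < B)
    (F := fun w => V ≤ frq (du (zt L t D w).2.2.1 - du (D (zt L t D w).2.2.2))
      (du (zt L t D w).2.1 - du (zt L t D w).2.2.1)
      (dn (zt L t D w).2.2.1 - dn (D (zt L t D w).2.2.2))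
      (dn (zt L t D w).2.1 - dn (zt L t D w).2.2.1) ∨
      |du (D (L w.1.1.1.2)) - du (D (L w.1.1.1.1))| < B) hL4.nonneg fun w hz hbad => ?_).trans
    (add_le_add (Pb_imp2 hL4.nonneg fun w _ hw => hw) le_rfl)
  obtain ⟨q1, q2, q3⟩ := P4_pos hp L G₁ G₂ hz
  obtain ⟨a1, a2, a3, a4, a5, a6, a7⟩ := P3_sup hp L G₁ G₂ q1
  by_contra hcon
  push Not at hcon
  obtain ⟨⟨c1, c2⟩, c3⟩ := hcon
  refine hbad ?_
  have c1' : frq (du (D (L w.1.1.1.2)) - du (D (L w.1.1.1.1)))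
      (du (D (L w.1.2)) - du (D (L w.1.1.1.2))) (dn (D (L w.1.1.1.2)) - dn (D (L w.1.1.1.1)))
      (dn (D (L w.1.2)) - dn (D (L w.1.1.1.2))) < V := c1
  rw [a6] at c1' c2
  obtain ⟨k1, k2, k3⟩ := slp_alg hV hB c2 c3 c1'
  have e1 : slp L D du dn w.1.1.1 = (dn (D (L w.1.1.2)) - dn (D (L w.1.1.1.1))) /
      (du (D (L w.1.1.2)) - du (D (L w.1.1.1.1))) := by
    unfold slp
    rw [a6]
  have e2 : slp L D du dn (w.1.1.2, w.1.2) = (dn (D (L w.1.2)) - dn (D (L w.1.1.2))) /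
      (du (D (L w.1.2)) - du (D (L w.1.1.2))) := rfl
  refine ⟨?_, ?_, ?_⟩
  · show |slp L D du dn w.1.1.1 - slp L D du dn (w.1.1.2, w.1.2)| ≤ V / B
    rw [e1, e2]
    exact k1
  · show |slp L D du dn w.1.1.1| ≤ 2 * V
    rw [e1]
    exact k2
  · show |slp L D du dn (w.1.1.2, w.1.2)| ≤ 2 * V
    rw [e2]
    exact k3

end Pool.TIE16
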